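import Pool.Agent.helper51.VF.SpecA

/-!
# Project vf (MP_74cfa5_ag), row PSF: the map `Ψ`
-/

set_option autoImplicit false

namespace Pool.Agent.VF

open Pool.Agent.PC Pool.Agent.QS MvPolynomial

universe u

theorem PSF (hEXP : EXP_stmt.{u}) (hUNQ : UNQ_stmt.{u}) (hIND : IND_stmt.{u})
    (hPSA : PSA_stmt.{u}) (hNVF : NVF_stmt.{u}) : PSF_stmt.{u} := by
  intro k F K _ _ _ _ _ _ _ p _ _ hfr hp n D y hn hK hF hdual δ T hδ hT
  have hE : ∀ x : K, δ x = ∑ l, δ (y l) * D l x := fun x =>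
    hEXP k K n D y hn hK hdual (δ.restrictScalars k) x
  obtain ⟨l0, hl0⟩ : ∃ l0, δ (y l0) ≠ 0 := by
    by_contra hcon
    push Not at hcon
    apply hδ
    ext x
    rw [hE x, Finset.sum_eq_zero fun l _ => by rw [hcon l, zero_mul]]
    rfl
  obtain ⟨Ψ, hΨ⟩ := hPSA k F K n T D l0 (δ (y l0))
  obtain ⟨f, hf⟩ := hNVF k F K p hfr hp n D y hn hK hdual δ T hT l0 hl0
  have hdd : dd k f ≠ 0 := by
    intro h
    apply hf
    rw [← hΨ f, h, map_zero]
  have hfin : Module.Finite F (Ω[F⁄k]) := Module.finite_of_finrank_pos (by rw [hF]; exact hn)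
  have hdim : Module.finrank F (Form k F n) = 1 := by
    rw [exteriorPower.finrank_eq, hF, Nat.choose_self]
  refine ⟨Ψ, ?_, ?_, ?_⟩
  · intro T' l1 hT' hl1 g
    rw [hΨ g, hUNQ k F K p hfr hp n D y hn hK hdual δ T T' hT hT' l0 (δ (y l0)) g hl0]
    exact hIND K n (fun i l => D l (algebraMap F K (g i))) (fun l => δ (y l)) (fun i => T' (g i))
      (fun i => by
        have h1 := hE (algebraMap F K (g i))
        rw [Derivation.map_algebraMap] at h1
        rw [h1]
        exact Finset.sum_congr rfl fun l _ => mul_comm _ _) l0 l1 hl0 hl1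
  · intro ξ hξ
    obtain ⟨c, hc⟩ := (finrank_eq_one_iff_of_nonzero' _ hdd).mp hdim ξ
    rw [← hc, map_smul, hΨ f, Algebra.smul_def, mul_eq_zero] at hξ
    rcases hξ with h | h
    · have h2 : c = 0 := (algebraMap F K).injective (by rw [h, map_zero])
      rw [← hc, h2, zero_smul]
    · exact absurd h hf
  · intro ω ξ hω
    obtain ⟨c, hc⟩ := (finrank_eq_one_iff_of_nonzero' _ hω).mp hdim ξ
    exact ⟨c, hc.symm⟩

end Pool.Agent.VF
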