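import Pool.Agent.helper51.VF.SpecB
import Pool.Agent.helper51.VF.Lib

/-!
# Project vf (MP_74cfa5_ag), row SAT: saturated derivations
-/

set_option autoImplicit false

namespace Pool.Agent.VF

open Pool.Agent.PC Pool.Agent.QS MvPolynomial

universe u

/-- a height one prime below `m` contains a prime element of the local ring which generates it -/
theorem SAT_prime {A : Type u} [CommRing A] [IsDomain A] [IsNoetherianRing A] (m : Ideal A)
    [m.IsPrime] (hUF : UniqueFactorizationMonoid (Localization.AtPrime m)) (Q : Ideal A)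
    (hQ : Q.IsPrime) (hh : Q.height = 1) (hQm : Q ≤ m) :
    ∃ q : Localization.AtPrime m, Prime q ∧
      ∀ a ∈ Q, q ∣ algebraMap A (Localization.AtPrime m) a := by
  have hdisj : Disjoint (m.primeCompl : Set A) (Q : Set A) := by
    rw [Set.disjoint_left]
    intro x hx hx'
    exact hx (hQm hx')
  have hQLp := IsLocalization.isPrime_of_isPrime_disjoint m.primeCompl
    (Localization.AtPrime m) Q hQ hdisj
  have hcomap : (Q.map (algebraMap A (Localization.AtPrime m))).comap
      (algebraMap A (Localization.AtPrime m)) = Q :=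
    IsLocalization.under_map_of_isPrime_disjoint m.primeCompl (Localization.AtPrime m) hQ hdisj
  have hinj : Function.Injective (algebraMap A (Localization.AtPrime m)) :=
    IsLocalization.injective _ m.primeCompl_le_nonZeroDivisors
  have hbot : (⊥ : Ideal A).height = 0 := Ideal.height_bot
  have hne : Q.map (algebraMap A (Localization.AtPrime m)) ≠ ⊥ := by
    intro h
    rw [h, Ideal.comap_bot_of_injective _ hinj] at hcomap
    rw [← hcomap, hbot] at hh
    exact zero_ne_one hh
  obtain ⟨q, hq, hqp⟩ := hQLp.exists_mem_prime_of_ne_bot hne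
  refine ⟨q, hqp, ?_⟩
  have hPp : (Ideal.span {q}).IsPrime := (Ideal.span_singleton_prime hqp.ne_zero).2 hqp
  obtain ⟨P, hP⟩ : ∃ P : Ideal A, P = (Ideal.span {q}).comap
    (algebraMap A (Localization.AtPrime m)) := ⟨_, rfl⟩
  have hP1 : P.IsPrime := by
    rw [hP]
    exact Ideal.comap_isPrime _ _
  have hP2 : P ≤ Q := by
    rw [hP, ← hcomap]
    refine Ideal.comap_mono ?_
    rw [Ideal.span_singleton_le_iff_mem]
    exact hq
  have hP3 : ⊥ < P := by
    rw [bot_lt_iff_ne_bot]
    intro h
    obtain ⟨a, s, rfl⟩ := IsLocalization.exists_mk'_eq m.primeCompl q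
    have h1 : a ∈ P := by
      rw [hP, Ideal.mem_comap, Ideal.mem_span_singleton]
      exact ⟨algebraMap A _ s, (IsLocalization.mk'_spec _ a s).symm⟩
    rw [h, Ideal.mem_bot] at h1
    apply hqp.ne_zero
    rw [h1, IsLocalization.mk'_zero]
  have hPQ : P = Q := by
    by_contra hcon
    have hlt : P < Q := lt_of_le_of_ne hP2 hcon
    have h1 := Ideal.height_strict_mono_of_isPrime_of_isPrime hlt
    have h2 := Ideal.height_strict_mono_of_isPrime_of_isPrime hP3
    rw [hh] at h1
    rw [hbot] at h2
    exact absurd (Order.one_le_iff_pos.2 h2) (not_le.2 h1)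
  intro a ha
  rw [← hPQ, hP, Ideal.mem_comap, Ideal.mem_span_singleton] at ha
  exact ha

theorem SAT (hEXP : EXP_stmt.{u}) : SAT_stmt.{u} := by
  classical
  intro k A F K _ _ _ _ _ _ _ _ _ _ _ _ _ _ n hn hK m _ y D hDual hUF hex
  obtain ⟨Δ, hΔ⟩ := hex
  have hmp : m.IsPrime := Ideal.IsMaximal.isPrime inferInstance
  have hE : ∀ (δ : Derivation F K K) (x : K), δ x = ∑ l, δ (algebraMap A K (y l)) * D l x :=
    fun δ x => hEXP k K n D (fun l => algebraMap A K (y l)) hn hK hDual.1 (δ.restrictScalars k) x
  obtain ⟨b, hb⟩ := IsLocalization.exist_integer_multiples_of_finite (nonZeroDivisors A)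
    (fun l : Fin n => Δ (algebraMap A K (y l)))
  choose a ha using hb
  have hb0 : algebraMap A K b ≠ 0 := by
    intro h
    exact nonZeroDivisors.coe_ne_zero b (IsFractionRing.injective A K (by rw [h, map_zero]))
  let L := Localization.AtPrime m
  let alg : Algebra L K := IsLocalization.localizationAlgebraOfSubmonoidLe L K m.primeCompl (nonZeroDivisors A)
    m.primeCompl_le_nonZeroDivisors
  have tow : IsScalarTower A L K := IsLocalization.localization_isScalarTower_of_submonoid_le L K m.primeCompl
    (nonZeroDivisors A) m.primeCompl_le_nonZeroDivisors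
  have frl : IsFractionRing L K := IsFractionRing.isFractionRing_of_isDomain_of_isLocalization
    m.primeCompl L K
  have hinj : Function.Injective (algebraMap L K) := IsFractionRing.injective L K
  have ufl : UniqueFactorizationMonoid L := hUF
  let nml : StrongNormalizationMonoid L := UniqueFactorizationMonoid.strongNormalizationMonoid
  let ngl : StrongNormalizedGCDMonoid L := UniqueFactorizationMonoid.toStrongNormalizedGCDMonoid L
  obtain ⟨g, hg, hg1⟩ := Finset.extract_gcd (s := (Finset.univ : Finset (Fin n)))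
    (fun l => algebraMap A L (a l)) ⟨⟨0, hn⟩, Finset.mem_univ _⟩
  obtain ⟨c, hc⟩ : ∃ c : L, c = Finset.univ.gcd fun l => algebraMap A L (a l) := ⟨_, rfl⟩
  rw [← hc] at hg
  have ha' : ∀ l, algebraMap A K (a l) = algebraMap A K b * Δ (algebraMap A K (y l)) := by
    intro l
    have h1 := ha l
    rw [h1, Algebra.smul_def]
  have hc0 : algebraMap L K c ≠ 0 := by
    intro h
    have h1 : c = 0 := hinj (by rw [h, map_zero])
    apply hΔ
    ext x
    rw [hE Δ x, Finset.sum_eq_zero]
    · rfl
    intro l _
    have h2 := hg l (Finset.mem_univ _)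
    rw [h1, zero_mul] at h2
    have h3 : algebraMap A K (a l) = 0 := by
      rw [IsScalarTower.algebraMap_apply A L K, h2, map_zero]
    rw [ha' l, mul_eq_zero] at h3
    rw [h3.resolve_left hb0, zero_mul]
  obtain ⟨δ, hδ⟩ : ∃ δ : Derivation F K K, δ = (algebraMap A K b / algebraMap L K c) • Δ :=
    ⟨_, rfl⟩
  have hδy : ∀ l, δ (algebraMap A K (y l)) = algebraMap L K (g l) := by
    intro l
    rw [hδ, Derivation.smul_apply, smul_eq_mul, div_mul_eq_mul_div, ← ha' l,
      div_eq_iff hc0, IsScalarTower.algebraMap_apply A L K, hg l (Finset.mem_univ _), map_mul,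
      mul_comm]
  have hloc : ∀ z : L, Loc m (algebraMap L K z) := by
    intro z
    obtain ⟨x, s, rfl⟩ := IsLocalization.exists_mk'_eq m.primeCompl z
    refine ⟨x, s, s.2, ?_⟩
    have hs0 : algebraMap A K (s : A) ≠ 0 := LB_ne (Q := m) s.2
    rw [eq_div_iff hs0, IsScalarTower.algebraMap_apply A L K, ← map_mul,
      IsLocalization.mk'_spec, ← IsScalarTower.algebraMap_apply A L K]
  refine ⟨δ, ?_, ?_, ?_⟩
  · intro h0
    have h1 : ∀ l ∈ (Finset.univ : Finset (Fin n)), g l = 0 := by
      intro l _
      apply hinj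
      rw [← hδy l, h0, map_zero]
      rfl
    rw [Finset.gcd_eq_zero_iff.2 h1] at hg1
    exact zero_ne_one hg1
  · intro x
    rw [hE δ]
    refine LB_sum _ _ fun l _ => LB_mul ?_ ?_
    · rw [hδy l]
      exact hloc _
    · exact hDual.2 l x
  · intro Q hQ hh hQm
    by_contra hcon
    push Not at hcon
    obtain ⟨q, hq, hqQ⟩ := SAT_prime m hUF Q hQ hh hQm
    apply hq.not_isUnit
    rw [isUnit_iff_dvd_one, ← hg1]
    refine Finset.dvd_gcd fun l _ => ?_
    have h1 : LocI m Q (algebraMap L K (g l)) := by
      have h2 := hcon (y l)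
      rw [hδy l] at h2
      exact LB_I_inter le_rfl (hloc _) h2 hQm
    obtain ⟨x, s, hs, hx, h2⟩ := h1
    have hs0 : algebraMap A K s ≠ 0 := LB_ne (Q := m) hs
    have h3 : g l * algebraMap A L s = algebraMap A L x := by
      apply hinj
      rw [map_mul, ← IsScalarTower.algebraMap_apply A L K, ← IsScalarTower.algebraMap_apply A L K,
        h2, div_mul_cancel₀ _ hs0]
    have h4 : IsUnit (algebraMap A L s) :=
      IsLocalization.map_units L (⟨s, hs⟩ : m.primeCompl)
    have h5 := hqQ x hx
    have h6 : q ∣ g l * algebraMap A L s := by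
      rw [h3]
      exact h5
    exact (IsUnit.dvd_mul_right h4).1 h6

end Pool.Agent.VF
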